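import Pool.Agent.Helper46.ME.Final

/-!
There is an oriented matroid which is both Mandel and totally non-Euclidean.
-/

namespace Pool.Agent.Results.MP_9f5d24_co.MandelTotallyNonEuclidean

open Pool.Agent.Helper46.ME

/-- There is an oriented matroid of rank four on fourteen elements which is uniform (so that all
pairs of different elements are programs), Mandel and totally non-Euclidean. -/
theorem result : ∃ O : OM 4 (Fin 14),
    (∀ x : Fin 4 → Fin 14, Function.Injective x → O.chi x ≠ 0) ∧
    (∀ g f, g ≠ f → O.IsProgram g f) ∧ O.Mandel ∧ O.TotallyNonEuclidean :=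
  main

end Pool.Agent.Results.MP_9f5d24_co.MandelTotallyNonEuclidean
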